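import Pool.Agent.Lib.MP_3ee548_nt.RS.Iface

/-!
# Module MAXB of the RS board (MP_3ee548_nt)

The mean value of the majorant `Bmax` over `[-T, T]`.
-/

set_option autoImplicit false

open scoped BigOperators
open Classical

namespace Pool.Agent.Lib.MP_3ee548_nt.RS.H94

open Pool.Agent.Lib.MP_3ee548_nt.RS

/-- the dyadic interval of level `l` and index `j` of the block `k`. -/
def J (k l j : ℕ) : Finset ℕ := Finset.Ico (2 ^ k + j * 2 ^ l) (2 ^ k + (j + 1) * 2 ^ l)

lemma J_sub {k l j : ℕ} (hl : l ≤ k) (hj : j < 2 ^ (k - l)) : J k l j ⊆ blk k := by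
  intro m hm
  simp only [J, Finset.mem_Ico] at hm
  simp only [blk, Finset.mem_Ico]
  have h1 : (j + 1) * 2 ^ l ≤ 2 ^ k := by
    calc (j + 1) * 2 ^ l ≤ 2 ^ (k - l) * 2 ^ l := Nat.mul_le_mul_right _ hj
      _ = 2 ^ (k - l + l) := by rw [pow_add]
      _ = 2 ^ k := by rw [Nat.sub_add_cancel hl]
  have h2 : 2 ^ (k + 1) = 2 ^ k + 2 ^ k := by rw [pow_succ]; ring
  constructor
  · exact le_trans (Nat.le_add_right _ _) hm.1
  · rw [h2]; exact lt_of_lt_of_le hm.2 (Nat.add_le_add_left h1 _)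

lemma J_unique {k l j j' m : ℕ} (h : m ∈ J k l j) (h' : m ∈ J k l j') : j = j' := by
  simp only [J, Finset.mem_Ico] at h h'
  have hpos : 0 < 2 ^ l := by positivity
  have e1 : (m - 2 ^ k) / 2 ^ l = j := by
    apply Nat.div_eq_of_lt_le
    · have := h.1; omega
    · have h2 := h.2; have h1 := h.1; omega
  have e2 : (m - 2 ^ k) / 2 ^ l = j' := by
    apply Nat.div_eq_of_lt_le
    · have := h'.1; omega
    · have h2 := h'.2; have h1 := h'.1; omega
  rw [← e1, e2]

lemma Q_sum_le (lam : ℕ → ℝ) (k l : ℕ) (T : ℝ) (hl : l ≤ k) :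
    ∑ j ∈ Finset.range (2 ^ (k - l)), Q lam (J k l j) T ≤ Q lam (blk k) T := by
  unfold Q PC
  rw [← Nat.cast_sum]
  rw [← Finset.card_biUnion]
  · apply Nat.cast_le.2
    apply Finset.card_le_card
    intro p hp
    rw [Finset.mem_biUnion] at hp
    obtain ⟨j, hj, hp⟩ := hp
    rw [Finset.mem_range] at hj
    have hs := J_sub hl hj
    rw [Finset.mem_filter, Finset.mem_product, Finset.mem_product, Finset.mem_product] at hp
    rw [Finset.mem_filter, Finset.mem_product, Finset.mem_product, Finset.mem_product]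
    exact ⟨⟨⟨hs hp.1.1.1, hs hp.1.1.2⟩, ⟨hs hp.1.2.1, hs hp.1.2.2⟩⟩, hp.2⟩
  · intro j _ j' _ hne
    show Disjoint _ _
    rw [Finset.disjoint_left]
    intro p hp hp'
    rw [Finset.mem_filter, Finset.mem_product, Finset.mem_product, Finset.mem_product] at hp hp'
    exact hne (J_unique hp.1.1.1 hp'.1.1.1)

lemma cont_term (lam : ℕ → ℝ) (D : Finset ℕ) :
    Continuous (fun t : ℝ => ‖∑ m ∈ D, e (t * lam m)‖ ^ 4) := by
  unfold e
  fun_prop

lemma Q_nonneg (lam : ℕ → ℝ) (D : Finset ℕ) (T : ℝ) : 0 ≤ Q lam D T := by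
  unfold Q PC
  exact Nat.cast_nonneg _

theorem maxb (h1 : Qpos2Statement) : MaxbStatement := by
  obtain ⟨C, hC, hq⟩ := h1
  refine ⟨C, hC, ?_⟩
  intro lam k T hT
  have hint : ∫ t in (-T)..T, Bmax lam k t
      = ((k : ℝ) + 1) ^ 3 * ∑ l ∈ Finset.range (k + 1), ∑ j ∈ Finset.range (2 ^ (k - l)),
        ∫ t in (-T)..T, ‖∑ m ∈ J k l j, e (t * lam m)‖ ^ 4 := by
    unfold Bmax
    rw [intervalIntegral.integral_const_mul]
    rw [intervalIntegral.integral_finsetSum]
    · refine congrArg (fun z => ((k : ℝ) + 1) ^ 3 * z) ?_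
      apply Finset.sum_congr rfl
      intro l _
      rw [intervalIntegral.integral_finsetSum]
      · rfl
      · intro j _
        exact (cont_term lam (J k l j)).intervalIntegrable _ _
    · intro l _
      apply Continuous.intervalIntegrable
      exact continuous_finsetSum _ (fun j _ => cont_term lam (J k l j))
  rw [hint]
  have hterm : ∀ l ∈ Finset.range (k + 1), ∑ j ∈ Finset.range (2 ^ (k - l)),
      ∫ t in (-T)..T, ‖∑ m ∈ J k l j, e (t * lam m)‖ ^ 4 ≤ C * T * Q lam (blk k) T := by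
    intro l hl
    rw [Finset.mem_range] at hl
    calc ∑ j ∈ Finset.range (2 ^ (k - l)),
          ∫ t in (-T)..T, ‖∑ m ∈ J k l j, e (t * lam m)‖ ^ 4
        ≤ ∑ j ∈ Finset.range (2 ^ (k - l)), C * T * Q lam (J k l j) T := by
          apply Finset.sum_le_sum
          intro j _
          have := hq lam (fun _ => 1) (J k l j) T hT (fun i _ => by simp)
          simpa using this
      _ = C * T * ∑ j ∈ Finset.range (2 ^ (k - l)), Q lam (J k l j) T := by
          rw [Finset.mul_sum]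
      _ ≤ C * T * Q lam (blk k) T :=
          mul_le_mul_of_nonneg_left (Q_sum_le lam k l T (by omega)) (by positivity)
  calc ((k : ℝ) + 1) ^ 3 * ∑ l ∈ Finset.range (k + 1), ∑ j ∈ Finset.range (2 ^ (k - l)),
        ∫ t in (-T)..T, ‖∑ m ∈ J k l j, e (t * lam m)‖ ^ 4
      ≤ ((k : ℝ) + 1) ^ 3 * ∑ l ∈ Finset.range (k + 1), C * T * Q lam (blk k) T :=
        mul_le_mul_of_nonneg_left (Finset.sum_le_sum hterm) (by positivity)
    _ = C * ((k : ℝ) + 1) ^ 4 * T * Q lam (blk k) T := by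
        rw [Finset.sum_const, Finset.card_range, nsmul_eq_mul]
        push_cast
        ring

end Pool.Agent.Lib.MP_3ee548_nt.RS.H94
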